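import Mathlib
import Pool.Agent.Q161.StC
import Pool.Agent.W52.SecC.D3
import Pool.Agent.W262.TW.Ex3

/-!
# The Brauer-Manin sets of the twists of coverings of the line

Let `C d : d y² = ∏ k, F k (x, w)`, `F k` irreducible binary forms (at least four of them of odd
degree, some of them linear, general in the sense of `TwistsNearBranchPoint`).  Let
`Z : H(x, w, z) = 0` be any finite covering of the line, `H` a polynomial with integer coefficients,
monic in `z` and homogeneous (`z` of degree `e`), and let `Z d` be the fibre product of `Z` and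
`C d`, the quadratic twist by `d` of the double covering of `Z` given by the square root of
`∏ k, F k`; its gonality is arbitrary.

1. There is one set of squarefree `d`, with at most `C X (log X)^(-δ)` elements of absolute value at
most `X`, such that for all other squarefree `d` and ALL coverings `Z` every adelic point of `Z d`
orthogonal to the classes `(F k, e)`, `(F k * F l, e)` of its Brauer group has at all places the type
of one and the same rational branch point `P i`, reduces to `P i` modulo the primes `p > z` dividing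
`d`, and the fibre of `Z` over `P i` has a root modulo all these primes.
2. For every `Z`, and all squarefree `d` outside a set of density zero, this fibre has no derangement
(so it has roots modulo almost all primes).
3. If the fibres over the rational branch points have an integer root or a derangement (for
example, if they are irreducible of degree at least two), then for all squarefree `d` outside a set
of density zero, the Brauer-Manin set of `Z d` is empty or `Z d` has a rational point.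
4. The twists of the curve `y² = x (x² - w²) (x³ - 3 w³)`,
`z² = x⁴ + 105 x² w² - 102 x w³ + 13 w⁴`, of genus 7, have points everywhere locally for all `d`, and
the Brauer-Manin sets of 100 percent of them are empty.
-/

set_option autoImplicit false

namespace Pool.Agent.Results.MP_308fa9_nt.CoversOfTwists

open Polynomial Finset Pool.Agent.Q161.StA Pool.Agent.Q161.StB Pool.Agent.Q161.StC
open Pool.Agent.W313.BMX hiding Orthogonal
open Pool.Agent.Results.MP_ab3ecb_nt.TwistsNearBranchPoint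

/-- `x`, `x - 1`, `x + 1`, `x ^ 3 - 3` -/
noncomputable def ex : Fin 4 → ℤ[X] := ![X, X - 1, X + 1, X ^ 3 - 3]

/-- `z ^ 2 - (x ^ 4 + 105 x ^ 2 - 102 x + 13)` -/
noncomputable def exH : ℤ[X][X] := X ^ 2 - C (X ^ 4 + 105 * X ^ 2 - 102 * X + 13)

/-- its coefficients -/
theorem coeffs : (ex 0).natDegree = 1 ∧ (ex 1).natDegree = 1 ∧ (ex 2).natDegree = 1 ∧
    (ex 3).natDegree = 3 := by
  refine ⟨?_, ?_, ?_, ?_⟩
  · show (X : ℤ[X]).natDegree = 1
    exact natDegree_X
  · show (X - 1 : ℤ[X]).natDegree = 1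
    compute_degree!
  · show (X + 1 : ℤ[X]).natDegree = 1
    compute_degree!
  · show (X ^ 3 - 3 : ℤ[X]).natDegree = 3
    compute_degree!

theorem homog3 {R : Type} [CommRing R] (x w : R) : homog (ex 3) x w = x ^ 3 - 3 * w ^ 3 := by
  unfold homog
  rw [coeffs.2.2.2]
  simp only [sum_range_succ, sum_range_zero]
  have h0 : (ex 3).coeff 0 = -3 := by
    show (X ^ 3 - 3 : ℤ[X]).coeff 0 = -3
    simp
  have h1 : (ex 3).coeff 1 = 0 := by
    show (X ^ 3 - C 3 : ℤ[X]).coeff 1 = 0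
    rw [coeff_sub, coeff_X_pow, coeff_C]
    norm_num
  have h2 : (ex 3).coeff 2 = 0 := by
    show (X ^ 3 - C 3 : ℤ[X]).coeff 2 = 0
    rw [coeff_sub, coeff_X_pow, coeff_C]
    norm_num
  have h3 : (ex 3).coeff 3 = 1 := by
    show (X ^ 3 - C 3 : ℤ[X]).coeff 3 = 1
    rw [coeff_sub, coeff_X_pow, coeff_C]
    norm_num
  rw [h0, h1, h2, h3]
  push_cast
  ring

theorem homog0 {R : Type} [CommRing R] (x w : R) : homog (ex 0) x w = x := by
  rw [homog_linear _ coeffs.1]
  show ((X : ℤ[X]).coeff 1 : R) * x + ((X : ℤ[X]).coeff 0 : R) * w = x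
  simp

theorem homog1 {R : Type} [CommRing R] (x w : R) : homog (ex 1) x w = x - w := by
  rw [homog_linear _ coeffs.2.1]
  show ((X - 1 : ℤ[X]).coeff 1 : R) * x + ((X - 1 : ℤ[X]).coeff 0 : R) * w = x - w
  simp [coeff_one]
  ring

theorem homog2 {R : Type} [CommRing R] (x w : R) : homog (ex 2) x w = x + w := by
  rw [homog_linear _ coeffs.2.2.1]
  show ((X + 1 : ℤ[X]).coeff 1 : R) * x + ((X + 1 : ℤ[X]).coeff 0 : R) * w = x + w
  simp [coeff_one]

/-- the branch points -/
theorem pts : (-(ex 0).coeff 0 = 0 ∧ (ex 0).coeff 1 = 1) ∧ (-(ex 1).coeff 0 = 1 ∧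
    (ex 1).coeff 1 = 1) ∧ (-(ex 2).coeff 0 = -1 ∧ (ex 2).coeff 1 = 1) := by
  refine ⟨⟨?_, ?_⟩, ⟨?_, ?_⟩, ⟨?_, ?_⟩⟩
  · show -(X : ℤ[X]).coeff 0 = 0
    simp
  · show (X : ℤ[X]).coeff 1 = 1
    simp
  · show -(X - 1 : ℤ[X]).coeff 0 = 1
    simp
  · show (X - 1 : ℤ[X]).coeff 1 = 1
    simp [coeff_one]
  · show -(X + 1 : ℤ[X]).coeff 0 = -1
    simp
  · show (X + 1 : ℤ[X]).coeff 1 = 1
    simp [coeff_one]

theorem not_sq {n m : ℤ} (h1 : m ^ 2 < n) (h2 : n < (m + 1) ^ 2) (hm : 0 ≤ m) (b : ℚ) :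
    b ^ 2 ≠ (n : ℚ) := by
  intro h
  have h3 : ¬ IsSquare n := Pool.Agent.W262.TW.nsq h1 h2 hm
  exact h3 ((Rat.isSquare_intCast_iff).1 ⟨b, by rw [← h]; ring⟩)

theorem not_cube (b : ℚ) : b ^ 3 ≠ (3 : ℚ) := by
  intro h
  have hb : b ≠ 0 := by
    rintro rfl
    norm_num at h
  have : Fact (Nat.Prime 3) := ⟨by norm_num⟩
  have h1 := congrArg (padicValRat 3) h
  rw [padicValRat.pow] at h1
  have h2 : padicValRat 3 (3 : ℚ) = 1 := by
    have := padicValRat.self (p := 3) (by norm_num)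
    exact_mod_cast this
  rw [h2] at h1
  omega

/-- the square root of a number which is no square -/
theorem der (n : ℤ) (hn : ∀ b : ℚ, b ^ 2 ≠ (n : ℚ)) : Derangement (X ^ 2 - C n) := by
  have h1 : Irreducible (X ^ 2 - C (n : ℚ)) := X_pow_sub_C_irreducible_of_prime Nat.prime_two hn
  obtain ⟨σ, hσ⟩ := Pool.Agent.W52.SecC.D3.partD3 ℚ (X ^ 2 - C (n : ℚ)) h1
    (by rw [natDegree_X_pow_sub_C])
  refine ⟨σ, fun θ hθ => hσ θ ?_⟩
  simpa using hθ


theorem factors : Factors ex := by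
  have hirr : Irreducible ((X : ℚ[X]) ^ 3 - C 3) :=
    X_pow_sub_C_irreducible_of_prime Nat.prime_three not_cube
  have m0 : (ex 0).map (Int.castRingHom ℚ) = X := by
    show (X : ℤ[X]).map (Int.castRingHom ℚ) = X
    simp
  have m1 : (ex 1).map (Int.castRingHom ℚ) = X - C 1 := by
    show (X - 1 : ℤ[X]).map (Int.castRingHom ℚ) = X - C 1
    simp
  have m2 : (ex 2).map (Int.castRingHom ℚ) = X - C (-1) := by
    show (X + 1 : ℤ[X]).map (Int.castRingHom ℚ) = X - C (-1)
    simp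
  have m3 : (ex 3).map (Int.castRingHom ℚ) = X ^ 3 - C 3 := by
    show (X ^ 3 - 3 : ℤ[X]).map (Int.castRingHom ℚ) = X ^ 3 - C 3
    simp only [Polynomial.map_sub, Polynomial.map_pow, map_X, Polynomial.map_ofNat]
    exact congrArg _ (map_ofNat C 3).symm
  refine ⟨?_, ?_, ?_, ?_⟩
  · intro k
    fin_cases k
    · show Irreducible ((ex 0).map (Int.castRingHom ℚ))
      rw [m0]
      exact irreducible_X
    · show Irreducible ((ex 1).map (Int.castRingHom ℚ))
      rw [m1]
      exact irreducible_X_sub_C _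
    · show Irreducible ((ex 2).map (Int.castRingHom ℚ))
      rw [m2]
      exact irreducible_X_sub_C _
    · show Irreducible ((ex 3).map (Int.castRingHom ℚ))
      rw [m3]
      exact hirr
  · -- the roots are different
    have hne : ∀ k l, k < l → ¬ Associated ((ex k).map (Int.castRingHom ℚ))
        ((ex l).map (Int.castRingHom ℚ)) := by
      have key : ∀ P Q : ℚ[X], ∀ a : ℚ, P.eval a = 0 → Q.eval a ≠ 0 → ¬ Associated P Q := by
        rintro P Q a h1 h2 ⟨u, hu⟩
        apply h2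
        rw [← hu, eval_mul, h1, zero_mul]
      intro k l hkl
      fin_cases k <;> fin_cases l <;> first | exact absurd hkl (by decide) | skip
      · show ¬ Associated ((ex 0).map (Int.castRingHom ℚ)) ((ex 1).map (Int.castRingHom ℚ))
        rw [m0, m1]
        exact key _ _ 0 (by simp) (by simp)
      · show ¬ Associated ((ex 0).map (Int.castRingHom ℚ)) ((ex 2).map (Int.castRingHom ℚ))
        rw [m0, m2]
        exact key _ _ 0 (by simp) (by simp)
      · show ¬ Associated ((ex 0).map (Int.castRingHom ℚ)) ((ex 3).map (Int.castRingHom ℚ))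
        rw [m0, m3]
        exact key _ _ 0 (by simp) (by simp)
      · show ¬ Associated ((ex 1).map (Int.castRingHom ℚ)) ((ex 2).map (Int.castRingHom ℚ))
        rw [m1, m2]
        exact key _ _ 1 (by simp) (by simp)
      · show ¬ Associated ((ex 1).map (Int.castRingHom ℚ)) ((ex 3).map (Int.castRingHom ℚ))
        rw [m1, m3]
        exact key _ _ 1 (by simp) (by simp; norm_num)
      · show ¬ Associated ((ex 2).map (Int.castRingHom ℚ)) ((ex 3).map (Int.castRingHom ℚ))
        rw [m2, m3]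
        exact key _ _ (-1) (by simp) (by simp; norm_num)
    intro k l hkl
    rcases lt_or_gt_of_ne hkl with h | h
    · exact hne k l h
    · exact fun hA => hne l k h hA.symm
  · rw [Fin.sum_univ_four, coeffs.1, coeffs.2.1, coeffs.2.2.1, coeffs.2.2.2]
    decide
  · have h1 : Od ex = univ := by
      unfold Od
      rw [filter_true_of_mem]
      intro k _
      fin_cases k
      · exact coeffs.1 ▸ odd_one
      · exact coeffs.2.1 ▸ odd_one
      · exact coeffs.2.2.1 ▸ odd_one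
      · exact coeffs.2.2.2 ▸ (by decide)
    rw [h1]
    rfl


theorem vals : (val ex 0 1 = -1 ∧ val ex 0 2 = 1 ∧ val ex 0 3 = -3) ∧
    (val ex 1 0 = 1 ∧ val ex 1 2 = 2 ∧ val ex 1 3 = -2) ∧
    (val ex 2 0 = -1 ∧ val ex 2 1 = -2 ∧ val ex 2 3 = -4) := by
  obtain ⟨⟨a1, a2⟩, ⟨b1, b2⟩, ⟨c1, c2⟩⟩ := pts
  unfold Pool.Agent.Results.MP_ab3ecb_nt.TwistsNearBranchPoint.val
  rw [a1, a2, b1, b2, c1, c2]
  simp only [homog0, homog1, homog2, homog3]
  norm_num

theorem ln : ∀ i ∈ Ln ex, i = 0 ∨ i = 1 ∨ i = 2 := by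
  intro i hi
  fin_cases i
  · exact Or.inl rfl
  · exact Or.inr (Or.inl rfl)
  · exact Or.inr (Or.inr rfl)
  · exfalso
    have h1 : (ex 3).natDegree = 1 := (mem_filter.1 hi).2
    rw [coeffs.2.2.2] at h1
    omega

theorem od : Od ex = univ := by
  unfold Od
  rw [filter_true_of_mem]
  intro k _
  fin_cases k
  · exact coeffs.1 ▸ odd_one
  · exact coeffs.2.1 ▸ odd_one
  · exact coeffs.2.2.1 ▸ odd_one
  · exact coeffs.2.2.2 ▸ (by decide)

theorem general : General ex := by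
  obtain ⟨⟨a1, a2, a3⟩, ⟨b0, b2, b3⟩, ⟨c0, c1, c3⟩⟩ := vals
  have s12 : ¬ IsSquare (12 : ℤ) :=
    Pool.Agent.W262.TW.nsq (m := 3) (by norm_num) (by norm_num) (by norm_num)
  have s24 : ¬ IsSquare (24 : ℤ) :=
    Pool.Agent.W262.TW.nsq (m := 4) (by norm_num) (by norm_num) (by norm_num)
  have s8 : ¬ IsSquare (-8 : ℤ) := by
    rintro ⟨r, hr⟩
    nlinarith [mul_self_nonneg r]
  have p01 : ∏ l ∈ ({2, 3} : Finset (Fin 4)), (val ex 0 l * val ex 1 l) = 12 := by
    rw [prod_insert (by decide), prod_singleton, a2, b2, a3, b3]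
    norm_num
  have p02 : ∏ l ∈ ({1, 3} : Finset (Fin 4)), (val ex 0 l * val ex 2 l) = 24 := by
    rw [prod_insert (by decide), prod_singleton, a1, c1, a3, c3]
    norm_num
  have p12 : ∏ l ∈ ({0, 3} : Finset (Fin 4)), (val ex 1 l * val ex 2 l) = -8 := by
    rw [prod_insert (by decide), prod_singleton, b0, c0, b3, c3]
    norm_num
  have hsym : ∀ (i k : Fin 4) (T : Finset (Fin 4)), ∏ l ∈ T, (val ex k l * val ex i l) =
      ∏ l ∈ T, (val ex i l * val ex k l) :=
    fun i k T => prod_congr rfl fun l _ => mul_comm _ _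
  refine ⟨?_, ?_⟩
  · intro i hi k hk hik
    rw [od]
    simp only [inter_univ]
    rcases ln i hi with rfl | rfl | rfl <;> rcases ln k hk with rfl | rfl | rfl
    · exact absurd rfl hik
    · exact ⟨{2, 3}, by decide, by decide, by decide, by rw [p01]; exact s12⟩
    · exact ⟨{1, 3}, by decide, by decide, by decide, by rw [p02]; exact s24⟩
    · exact ⟨{2, 3}, by decide, by decide, by decide, by rw [hsym 0 1, p01]; exact s12⟩
    · exact absurd rfl hik
    · exact ⟨{0, 3}, by decide, by decide, by decide, by rw [p12]; exact s8⟩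
    · exact ⟨{1, 3}, by decide, by decide, by decide, by rw [hsym 0 2, p02]; exact s24⟩
    · exact ⟨{0, 3}, by decide, by decide, by decide, by rw [hsym 1 2, p12]; exact s8⟩
    · exact absurd rfl hik
  · intro _ h
    exfalso
    have h1 : (3 : Fin 4) ∈ Ln ex := h (by rw [od]; exact mem_univ _)
    have h2 : (ex 3).natDegree = 1 := (mem_filter.1 h1).2
    rw [coeffs.2.2.2] at h2
    omega

/-- the coefficients of the covering -/
theorem exH_coeff : exH.natDegree = 2 ∧ exH.Monic ∧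
    exH.coeff 0 = -(X ^ 4 + 105 * X ^ 2 - 102 * X + 13) ∧ exH.coeff 1 = 0 ∧ exH.coeff 2 = 1 := by
  unfold exH
  refine ⟨natDegree_X_pow_sub_C, monic_X_pow_sub_C _ two_ne_zero, ?_, ?_, ?_⟩
  · rw [coeff_sub, coeff_X_pow, coeff_C]
    norm_num
  · rw [coeff_sub, coeff_X_pow, coeff_C]
    norm_num
  · rw [coeff_sub, coeff_X_pow, coeff_C]
    norm_num

theorem form_ex {R : Type} [CommRing R] (x w : R) : form 4 (exH.coeff 0) x w =
    -(x ^ 4 + 105 * x ^ 2 * w ^ 2 - 102 * x * w ^ 3 + 13 * w ^ 4) := by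
  rw [exH_coeff.2.2.1]
  unfold form
  have c0 : (-(X ^ 4 + 105 * X ^ 2 - 102 * X + 13 : ℤ[X])).coeff 0 = -13 := by
    simp
  have c1 : (-(X ^ 4 + 105 * X ^ 2 - 102 * X + 13 : ℤ[X])).coeff 1 = 102 := by
    simp [coeff_X]
  have c2 : (-(X ^ 4 + 105 * X ^ 2 - 102 * X + 13 : ℤ[X])).coeff 2 = -105 := by
    simp [coeff_X]
  have c3 : (-(X ^ 4 + 105 * X ^ 2 - 102 * X + 13 : ℤ[X])).coeff 3 = 0 := by
    simp [coeff_X]
  have c4 : (-(X ^ 4 + 105 * X ^ 2 - 102 * X + 13 : ℤ[X])).coeff 4 = -1 := by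
    simp [coeff_X]
  simp only [sum_range_succ, sum_range_zero, c0, c1, c2, c3, c4]
  push_cast
  ring

theorem fibre_ex {R : Type} [CommRing R] (x w : R) : fibre 2 exH x w =
    X ^ 2 - C (x ^ 4 + 105 * x ^ 2 * w ^ 2 - 102 * x * w ^ 3 + 13 * w ^ 4) := by
  obtain ⟨h1, -, h2, h3, h4⟩ := exH_coeff
  unfold fibre
  rw [h1]
  simp only [sum_range_succ, sum_range_zero]
  rw [show 2 * (2 - 0) = 4 from rfl, form_ex, h3, h4]
  have e1 : form (2 * (2 - 1)) (0 : ℤ[X]) x w = 0 := by
    unfold form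
    simp
  have e2 : form (2 * (2 - 2)) (1 : ℤ[X]) x w = 1 := by
    unfold form
    simp
  rw [e1, e2, C_neg]
  simp only [C_0, C_1, pow_zero, mul_one, zero_mul, one_mul]
  ring

theorem cover_ex {R : Type} [CommRing R] (x w z : R) : cover 2 exH x w z =
    z ^ 2 - (x ^ 4 + 105 * x ^ 2 * w ^ 2 - 102 * x * w ^ 3 + 13 * w ^ 4) := by
  rw [← fibre_eval, fibre_ex]
  simp

/-- the fibres over the rational branch points -/
theorem fibres : fibreAt ex 2 exH 0 = X ^ 2 - C 13 ∧ fibreAt ex 2 exH 1 = X ^ 2 - C 17 ∧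
    fibreAt ex 2 exH 2 = X ^ 2 - C 221 := by
  obtain ⟨⟨a1, a2⟩, ⟨b1, b2⟩, ⟨c1, c2⟩⟩ := pts
  unfold fibreAt
  rw [a1, a2, b1, b2, c1, c2, fibre_ex, fibre_ex, fibre_ex]
  norm_num

theorem fibres_der : ∀ i, (ex i).natDegree = 1 → Derangement (fibreAt ex 2 exH i) := by
  intro i hi
  have h13 := der 13 (not_sq (m := 3) (by norm_num) (by norm_num) (by norm_num))
  have h17 := der 17 (not_sq (m := 4) (by norm_num) (by norm_num) (by norm_num))
  have h221 := der 221 (not_sq (m := 14) (by norm_num) (by norm_num) (by norm_num))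
  rcases ln i (mem_filter.2 ⟨mem_univ _, hi⟩) with rfl | rfl | rfl
  · rw [fibres.1]
    exact h13
  · rw [fibres.2.1]
    exact h17
  · rw [fibres.2.2]
    exact h221

/-- a point over a rational branch point -/
theorem ex_pt {F : Type} [Field F] (d : ℤ) (k : Fin 3) (z : F)
    (hz : z ^ 2 = (Pool.Agent.W262.TW.exn k : F)) :
    Nonempty (CoverPoint ex d 2 exH F) := by
  have hx : ∀ x : F, (x = 0 ∨ x = 1 ∨ x = -1) → ((d : ℤ) : F) * 0 ^ 2 = ∏ k, homog (ex k) x 1 := by
    intro x hx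
    rw [Fin.prod_univ_four, homog0, homog1, homog2, homog3]
    rcases hx with rfl | rfl | rfl <;> ring
  fin_cases k
  · exact ⟨⟨⟨0, 1, 0, Or.inr one_ne_zero, hx 0 (Or.inl rfl)⟩, z, by
      show cover 2 exH (0 : F) 1 z = 0
      rw [cover_ex, hz]
      show (((13 : ℤ) : F)) - _ = 0
      push_cast
      ring⟩⟩
  · exact ⟨⟨⟨1, 1, 0, Or.inr one_ne_zero, hx 1 (Or.inr (Or.inl rfl))⟩, z, by
      show cover 2 exH (1 : F) 1 z = 0
      rw [cover_ex, hz]
      show (((17 : ℤ) : F)) - _ = 0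
      push_cast
      ring⟩⟩
  · exact ⟨⟨⟨-1, 1, 0, Or.inr one_ne_zero, hx (-1) (Or.inr (Or.inr rfl))⟩, z, by
      show cover 2 exH (-1 : F) 1 z = 0
      rw [cover_ex, hz]
      show (((221 : ℤ) : F)) - _ = 0
      push_cast
      ring⟩⟩

theorem ex_adelic (d : ℤ) : Nonempty (AdelicCoverPoint ex d 2 exH) := by
  have h1 : Nonempty (CoverPoint ex d 2 exH ℝ) := by
    refine ex_pt d 0 (Real.sqrt 13) ?_
    rw [Real.sq_sqrt (by norm_num)]
    show (13 : ℝ) = ((13 : ℤ) : ℝ)
    norm_num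
  have h2 : ∀ p : Nat.Primes, Nonempty (CoverPoint ex d 2 exH ℚ_[(p : ℕ)]) := by
    intro p
    obtain ⟨k, z, hz⟩ := Pool.Agent.W262.TW.padic_ex (p : ℕ)
    refine ex_pt d k (z : ℚ_[(p : ℕ)]) ?_
    have h3 := congrArg (fun t : ℤ_[(p : ℕ)] => (t : ℚ_[(p : ℕ)])) hz
    simpa using h3
  exact ⟨⟨h1.some, fun p => (h2 p).some⟩⟩

theorem result :
    (∀ (K : Type) [Fintype K] [DecidableEq K] (f : K → ℤ[X]), Factors f → General f →
      (Ln f).Nonempty → ∃ z : ℕ,
      (∃ δ : ℝ, 0 < δ ∧ ∃ C : ℝ, ∀ X : ℕ, 3 ≤ X →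
        ({d : ℤ | d.natAbs ≤ X ∧ Squarefree d ∧ ¬ ∀ (e : ℕ) (H : ℤ[X][X]), H.Monic →
          ∀ P : AdelicCoverPoint f d e H, Orthogonal P.base →
            ∃ i, (f i).natDegree = 1 ∧ TypeOf P.base i ∧ ReducesTo z P.base i ∧
              ∀ p : Nat.Primes, z < (p : ℕ) → ((p : ℕ) : ℤ) ∣ d →
                ∃ r : ℤ, ((p : ℕ) : ℤ) ∣ (fibreAt f e H i).eval r}.ncard : ℝ) ≤
          C * X * (Real.log X) ^ (-δ)) ∧
      ∀ (e : ℕ) (H : ℤ[X][X]), H.Monic →
        DensityZero {d : ℤ | Squarefree d ∧ ¬ ∀ P : AdelicCoverPoint f d e H, Orthogonal P.base →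
          ∃ i, (f i).natDegree = 1 ∧ TypeOf P.base i ∧ ReducesTo z P.base i ∧
            ¬ Derangement (fibreAt f e H i)} ∧
        ((∀ i, (f i).natDegree = 1 → (∃ r : ℤ, (fibreAt f e H i).eval r = 0) ∨
            Derangement (fibreAt f e H i)) →
          DensityZero {d : ℤ | Squarefree d ∧
            (∃ P : AdelicCoverPoint f d e H, Orthogonal P.base) ∧
            IsEmpty (CoverPoint f d e H ℚ)})) ∧
    (∀ h : ℤ[X], Irreducible (h.map (Int.castRingHom ℚ)) → 2 ≤ h.natDegree → Derangement h) ∧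
    (Factors ex ∧ General ex ∧ (Ln ex).Nonempty ∧ exH.Monic ∧
      (∀ i, (ex i).natDegree = 1 → Derangement (fibreAt ex 2 exH i)) ∧
      (∀ d : ℤ, Nonempty (AdelicCoverPoint ex d 2 exH)) ∧
      DensityZero {d : ℤ | Squarefree d ∧ ∃ P : AdelicCoverPoint ex d 2 exH, Orthogonal P.base}) := by
  have hden : ∀ A B : Set ℤ, B ⊆ A → DensityZero A → DensityZero B := by
    intro A B hAB hA ε hε
    obtain ⟨X₀, h⟩ := hA ε hε
    refine ⟨X₀, fun X hX => le_trans ?_ (h X hX)⟩
    refine Nat.cast_le.2 (Set.ncard_le_ncard (fun d hd => ⟨hAB hd.1, hd.2⟩) ?_)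
    refine (Pool.Agent.TH213.SP.fin_le X (fun _ => True)).subset ?_
    rintro d ⟨-, h1⟩
    exact ⟨h1, trivial⟩
  have hex : (Ln ex).Nonempty := ⟨0, mem_filter.2 ⟨mem_univ _, coeffs.1⟩⟩
  refine ⟨fun K _ _ f hF hG hL => ?_, ?_, factors, general, hex, exH_coeff.2.1, fibres_der,
    ex_adelic, ?_⟩
  · obtain ⟨z₁, δ, hδ, C, hC⟩ := main K f hF hG hL
    obtain ⟨z₂, hz₂⟩ := main' K f hF hG hL
    have hmono : ∀ (z z' : ℕ), z ≤ z' → ∀ (d : ℤ) (P : AdelicPoint f d) (i : K),
        ReducesTo z P i → ReducesTo z' P i :=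
      fun z z' hz d P i h p hp hpd => h p (lt_of_le_of_lt hz hp) hpd
    refine ⟨max z₁ z₂, ⟨δ, hδ, C, fun X hX => le_trans ?_ (hC X hX)⟩, fun e H hH => ?_⟩
    · refine Nat.cast_le.2 (Set.ncard_le_ncard ?_ (Pool.Agent.TH213.SP.fin_le X _))
      rintro d ⟨h1, h2, h3⟩
      refine ⟨h1, h2, fun h4 => h3 fun e H hH P hP => ?_⟩
      obtain ⟨i, a1, a2, a3, a4⟩ := h4 e H hH P hP
      exact ⟨i, a1, a2, hmono _ _ (le_max_left _ _) d _ i a3,
        fun p hp hpd => a4 p (lt_of_le_of_lt (le_max_left _ _) hp) hpd⟩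
    · have hD := hz₂ e H hH
      refine ⟨?_, fun hroot => ?_⟩
      · refine hden _ _ ?_ hD
        rintro d ⟨h1, h2⟩
        refine ⟨h1, fun h4 => h2 fun P hP => ?_⟩
        obtain ⟨i, a1, a2, a3, a4⟩ := h4 P hP
        exact ⟨i, a1, a2, hmono _ _ (le_max_right _ _) d _ i a3, a4⟩
      · refine hden _ _ ?_ hD
        rintro d ⟨h1, ⟨P, hP⟩, h2⟩
        refine ⟨h1, fun h4 => ?_⟩
        obtain ⟨i, a1, -, -, a4⟩ := h4 P hP
        obtain ⟨r, hr⟩ := (hroot i a1).resolve_right a4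
        exact h2.elim (rational_point f d e H i a1 r hr)
  · intro h hirr hdeg
    have h1 : (h.map (Int.castRingHom ℚ)).natDegree = h.natDegree :=
      natDegree_map_eq_of_injective (RingHom.injective_int (Int.castRingHom ℚ)) _
    obtain ⟨σ, hσ⟩ := Pool.Agent.W52.SecC.D3.partD3 ℚ (h.map (Int.castRingHom ℚ)) hirr
      (by rw [h1]; exact hdeg)
    refine ⟨σ, fun θ hθ => hσ θ ?_⟩
    have h2 := aeval_map_algebraMap (R := ℤ) ℚ θ h
    exact h2.trans hθ
  · obtain ⟨z, hz⟩ := main' (Fin 4) ex factors general hex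
    refine hden _ _ ?_ (hz 2 exH exH_coeff.2.1)
    rintro d ⟨h1, P, hP⟩
    refine ⟨h1, fun h4 => ?_⟩
    obtain ⟨i, a1, -, -, a4⟩ := h4 P hP
    exact a4 (fibres_der i a1)

end Pool.Agent.Results.MP_308fa9_nt.CoversOfTwists
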