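import Pool.Agent.Q138.PS.TT
import Pool.Agent.Results.MP_308fa9_nt.EmptyBrauerManinSet
import Pool.Agent.Results.MP_308fa9_nt.BrauerManinMixedFactors

/-!
# The Brauer-Manin sets of the twists by the integers `± ⌊α P(n)⌋`

Let `q ≥ 2`. Outside a set of real numbers of Hausdorff dimension at most `q / (q + 1 / (q 2 ^ (q - 1)))` (that is
`8 / 9` for `q = 2`) every `α > 0` has the following property. Let `f_1, ..., f_k ∈ ℤ[x]` be irreducible over `ℚ` and
pairwise non-associated, all of even degree, or none of them linear, of even total degree and at least four of them of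
odd degree. Then for ALL integral polynomials `P` of degree `q` with positive leading coefficient and coefficients of
size at most `N ^ η`, and for all but `O (N / (log N) ^ δ)` of the `n ≤ N`, no adelic point of the curves
`± ⌊α P(n)⌋ y² = f_1(x) ... f_k(x)` is orthogonal to the classes `(F_i, e)` (`deg F_i` even) and `(F_i F_j, e)`
(`deg F_i`, `deg F_j` odd) of the Brauer group; so the Brauer-Manin sets of these curves are empty, and Stoll's
conjecture holds for them.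
-/

set_option autoImplicit false

open Finset Filter Topology MeasureTheory Polynomial
open Pool.Agent.Q138.PS Pool.Agent.W313.BMX

namespace Pool.Agent.Results.MP_308fa9_nt.EmptyAlongRealMultiples

section K

variable {K : Type} [Fintype K] [DecidableEq K]

/-- the indices of the factors of odd degree -/
def Od (f : K → ℤ[X]) : Finset K := univ.filter (fun k => Odd (f k).natDegree)

/-- the factors are irreducible over `ℚ`, not linear, pairwise non-associated, of even total degree, and at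
least four of them have odd degree -/
def MixedFactors (f : K → ℤ[X]) : Prop :=
  ((∀ k, Irreducible ((f k).map (Int.castRingHom ℚ))) ∧
  (∀ k l, k ≠ l →
    ¬ Associated ((f k).map (Int.castRingHom ℚ)) ((f l).map (Int.castRingHom ℚ))) ∧
  Even (∑ k, (f k).natDegree) ∧ 4 ≤ (Od f).card) ∧ ∀ k, (f k).natDegree ≠ 1

/-- The family of the values of `F k * F l` at the components of an adelic point. -/
noncomputable def values2 {f : K → ℤ[X]} {d : ℤ} (P : AdelicPoint f d) (k l : K) : Fam :=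
  ⟨value P.re k * value P.re l, fun p => value (P.pa p) k * value (P.pa p) l⟩

/-- The adelic point is orthogonal to the classes `(F k, e)`, `deg F k` even, and `(F k * F l, e)`,
`deg F k`, `deg F l` odd: the number of the places at which the Hilbert symbol is not trivial is
even, so that the sum of the invariants is zero. -/
def OrthogonalMixed {f : K → ℤ[X]} {d : ℤ} (P : AdelicPoint f d) : Prop :=
  ∀ e : ℤ, e ≠ 0 → (∀ k, Even (f k).natDegree → Even (ram (values P k) e).ncard) ∧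
    ∀ k l, k ≠ l → Odd (f k).natDegree → Odd (f l).natDegree → Even (ram (values2 P k l) e).ncard

end K

/-- `X² - 13`, `(X - 1)² - 17`, `(X - 2)² - 221` -/
noncomputable def ex : Fin 3 → ℤ[X] := ![X ^ 2 - 13, (X - 1) ^ 2 - 17, (X - 2) ^ 2 - 221]

/-- `X² + X + 1`, `X³ - 2`, `X³ - 3`, `X³ - 5`, `X³ - 19` -/
noncomputable def ex' : Fin 5 → ℤ[X] :=
  ![X ^ 2 + X + 1, X ^ 3 - 2, X ^ 3 - 3, X ^ 3 - 5, X ^ 3 - 19]

open Classical in
/-- the number of the pairs of an integer `1 ≤ n ≤ N` and a sign `s` for which `s ⌊α P(n)⌋ = d m²` with a squarefree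
number `d` which has the property `Z` -/
noncomputable def count (α : ℝ) (P : ℤ[X]) (N : ℕ) (Z : ℤ → Prop) : ℕ :=
  ((Icc 1 N ×ˢ ({1, -1} : Finset ℤ)).filter fun x : ℕ × ℤ =>
    ∃ (d : ℤ) (m : ℕ), Squarefree d ∧ 1 ≤ m ∧ d * (m : ℤ) ^ 2 = x.2 * (⌊α * ((P.eval (x.1 : ℤ) : ℤ) : ℝ)⌋₊ : ℤ) ∧
      Z d).card

/-- the squarefree part of `± ⌊α P(n)⌋` has the property `Z` for at most `C N / (log N) ^ δ` of the `n ≤ N`, uniformly
in the polynomials `P` of degree `q` with positive leading coefficient and coefficients of size at most `N ^ η` -/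
def Few (q : ℕ) (α : ℝ) (Z : ℤ → Prop) : Prop :=
  ∃ η δ C : ℝ, 0 < η ∧ 0 < δ ∧ ∀ᶠ N : ℕ in atTop, ∀ P : ℤ[X], P.natDegree = q → 0 < P.leadingCoeff →
    (∀ j, |((P.coeff j : ℤ) : ℝ)| ≤ (N : ℝ) ^ η) → (count α P N Z : ℝ) ≤ C * N * (Real.log N) ^ (-δ)

theorem countable_pol : Countable ℤ[X] :=
  Cardinal.mk_le_aleph0_iff.1 (by
    refine (Polynomial.cardinalMk_le_max (R := ℤ)).trans ?_
    simp)

theorem result (q : ℕ) (hq : 2 ≤ q) :
    (∃ E : Set ℝ, dimH E ≤ ENNReal.ofReal ((q : ℝ) / (q + 1 / (q * 2 ^ (q - 1)))) ∧ ∀ α : ℝ, 0 < α → α ∉ E →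
      ∀ (k : ℕ) (f : Fin k → ℤ[X]),
      (Admissible f → Few q α (fun d => ∃ P : AdelicPoint f d, Orthogonal P)) ∧
      (MixedFactors f → Few q α (fun d => ∃ P : AdelicPoint f d, OrthogonalMixed P))) ∧
    (∀ (k : ℕ) (f : Fin k → ℤ[X]), Admissible f → ∀ d : ℤ, d ≠ 0 → ∀ (P : AdelicPoint f d) (i : Fin k) (e : ℤ),
      e ≠ 0 → (ram (values P i) e).Finite) ∧
    (Admissible ex ∧ ∀ d : ℤ, Nonempty (AdelicPoint ex d)) ∧
    (MixedFactors ex' ∧ ∀ d : ℤ, Nonempty (AdelicPoint ex' d)) := by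
  classical
  have := countable_pol
  obtain ⟨hE1, hE2⟩ := MP_308fa9_nt.EmptyBrauerManinSet.result
  obtain ⟨hM1, hM2, hM3, hM4⟩ := MP_308fa9_nt.BrauerManinMixedFactors.result
  refine ⟨?_, fun k f hf d hd P i e he => (hE1 (Fin k) f hf).2 d hd P i e he, hE2, ⟨hM2, hM3⟩, hM4⟩
  obtain ⟨E1, hdim1, hT1⟩ := exc_sqf (ι := Σ k : ℕ, (Fin k → ℤ[X])) q hq
    (fun i d => ∃ P : AdelicPoint i.2 d, Orthogonal P)
  obtain ⟨E2, hdim2, hT2⟩ := exc_sqf (ι := Σ k : ℕ, (Fin k → ℤ[X])) q hq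
    (fun i d => ∃ P : AdelicPoint i.2 d, OrthogonalMixed P)
  refine ⟨E1 ∪ E2, ?_, fun α hα hαE k f => ⟨fun hf => ?_, fun hf => ?_⟩⟩
  · rw [dimH_union]
    exact max_le hdim1 hdim2
  · obtain ⟨δ, hδ, C, hC⟩ := (hE1 (Fin k) f hf).1
    obtain ⟨η, hη, h1⟩ := hT1 α hα (fun h => hαE (Or.inl h)) ⟨k, f⟩
    obtain ⟨C', hC'⟩ := h1 δ C hδ hC
    exact ⟨η, δ, C', hη, hδ, hC'⟩
  · obtain ⟨δ, hδ, C, hC⟩ := hM1 (Fin k) f hf.1 hf.2
    obtain ⟨η, hη, h1⟩ := hT2 α hα (fun h => hαE (Or.inr h)) ⟨k, f⟩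
    obtain ⟨C', hC'⟩ := h1 δ C hδ hC
    exact ⟨η, δ, C', hη, hδ, hC'⟩

end Pool.Agent.Results.MP_308fa9_nt.EmptyAlongRealMultiples
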