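import Pool.Agent.Q51.SE.All
import Pool.Agent.Q51.SE.Pol2

/-!
# The Brauer-Manin sets of 100% of the everywhere locally soluble twists of Fermat curves are empty

Let `f ∈ ℤ[x]` be irreducible over `ℚ`, of degree `n`, let `F(x, w)` be its homogenisation, let `q` be an odd
prime and `m` an integer with `q ∣ m ∣ n`, and let `C_D : D y ^ m = F(x, w)` be the twists of the superelliptic
curve `y ^ m = f(x)`, smooth curves in the weighted projective plane of weights `(1, 1, n/m)`.  Suppose that any
two different complex zeros of `f` generate a field containing the `q`-th roots of unity.  For example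
`f = a x ^ n + b`, `n = m` a power of `q`: then the `C_D` are the Fermat curves `D y ^ n = a x ^ n + b w ^ n`
(for `n = 3` diagonal cubics, curves of genus one).

Put `L = ℚ[X]/(f) = ℚ(θ)`.  For a character `χ` of order `q` of the idele class group of `L` which is trivial on
the ideles of `ℚ` (by class field theory: a homomorphism `χ : Gal(L) → ℤ/q` with trivial corestriction to `ℚ`)
the class `A_χ = Cor_{L/ℚ} (χ, x - θ w)` lies in the Brauer group of `C_D`; its local invariant at a point over
`ℚ_p` is `χ_p (x - θ w)`, where `χ_p` is the component of `χ` on `(L ⊗ ℚ_p)^*`, and it is trivial at the real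
place (`q` is odd).

**Theorem.**  There are `δ > 0` and `C` such that for all `X ≥ 3` there are at most `C (log X)^(-δ) E(X)`
squarefree `D` with `|D| ≤ X` for which some adelic point of `C_D` is orthogonal to all classes `A_χ`;
here `E(X)` is the number of the squarefree `D` with `|D| ≤ X` for which `C_D` has an adelic point.
If `C_D` has an adelic point for some squarefree `D`, then `E(X) ≥ c X / log X * exp (∑ 1/l)` for large
`X`, the sum over the primes `l ≤ X` modulo which `f` has a zero.

So for 100% of the everywhere locally soluble twists `C_D` the Brauer-Manin set is empty, and the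
assertion of the problem holds: `C_D(ℚ)` is empty, too, and so is its closure.

Proof.  Let `(a_p)` be the values of `x - θ w` at an orthogonal adelic point.  By duality there is a
`δ ∈ L^*` with `a_p ∈ δ ℚ_p^* (L ⊗ ℚ_p)^{*q}` for all bad `p`, and up to local units for the other `p`.  After a
modification of `δ` by rational numbers, `q`-th powers, the class group and units we get an integer `α` of `L`
with `|σ α| ≤ C |D| ^ (1/n)` for all `σ`, which satisfies local conditions at all primes, and which determines
`|D|`.  The number of these `α` is bounded by the large sieve in dimension `n`; the hypothesis on the roots of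
unity makes the local conditions strong enough.  The lower bound for `E(X)`: Weil's bound for character sums, and
products of primes modulo which `f` has a zero in the class `1` modulo a suitable integer.

The definitions are in `Pool/Agent/Q51/SE/Def.lean` (`hom`, `Point`, `AdelicPoint`, `count`, `rootPrimes`,
`RootsOfUnityCondition`), `Pool/Agent/Q51/SE/Pol.lean` (`polOver`, `Point.Val`, `LocalCharacter`,
`ClassCharacter`, `ClassCharacter.inv`, `AdelicPoint.Orthogonal`, `InvariantsWellDefined`) and
`Pool/Agent/Q51/SE/Pol2.lean` (`numSoluble`, `numOrthogonal`, `sumRootPrimes`).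

(helper51, with lemmas of helper26, helper65, helper68, helper198, helper210, helper241, helper251, helper277,
and for the projects EL and EB of helper38, helper52, helper58, helper91, helper154, helper187, helper239,
helper247.)
-/

set_option autoImplicit false

namespace Pool.Agent.Results.MP_308fa9_nt.EmptyForFermatTwists

open Polynomial Pool.Agent.Q51.SE

theorem result (f : ℤ[X]) (hf : Irreducible (f.map (Int.castRingHom ℚ)))
    (q m : ℕ) (hq : q.Prime) (hq2 : q ≠ 2) (hqm : q ∣ m) (hmn : m ∣ f.natDegree)
    (hrou : RootsOfUnityCondition f q) :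
    (∀ D : ℤ, D ≠ 0 → (∀ p : Nat.Primes, InvariantsWellDefined f q m D p) ∧
      (∀ (P : AdelicPoint f m D) (χ : ClassCharacter f q),
        {p : Nat.Primes | χ.inv p (P.pa p) ≠ 0}.Finite) ∧
      ∀ Q : Point f m D ℚ, Q.adelic.Orthogonal q) ∧
    (∃ δ C : ℝ, 0 < δ ∧ ∀ X : ℝ, 3 ≤ X →
      numOrthogonal f q m X ≤ C * Real.log X ^ (-δ) * numSoluble f m X) ∧
    ((∃ D : ℤ, Squarefree D ∧ Nonempty (AdelicPoint f m D)) →
      ∃ c X₀ : ℝ, 0 < c ∧ ∀ X : ℝ, X₀ ≤ X →
        c * X / Real.log X * Real.exp (sumRootPrimes f X) ≤ numSoluble f m X) ∧
    (∀ a b : ℤ, a ≠ 0 → b ≠ 0 → ∀ k : ℕ, RootsOfUnityCondition (C a * X ^ (q ^ k) + C b) q) := by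
  obtain ⟨h1, h2, h3⟩ := pol_of f hf q m
    (result_of t_val t_finp t_upq f hf q m hq hq2 hqm hmn hrou)
  exact ⟨h1, h2, h3, fun a b ha hb k => fermat_cond hq k ha hb⟩

end Pool.Agent.Results.MP_308fa9_nt.EmptyForFermatTwists
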